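import Pool.Agent.Q244.AI.Lin
import Pool.Agent.Q244.GD.Main

/-!
# The `p`-adic Schanuel conjecture: reduction to numbers in `ℚ_p`

The conjecture says that `p`-adic logarithms of algebraic numbers which are linearly independent over
`ℚ` are algebraically independent.  Here `p`-adic numbers in the algebraic closure of `ℚ_p` are
involved.  We prove that the conjecture for the prime `p` is equivalent to a statement about `ℚ_p`:
elements `x_1, ..., x_n` of `ℚ_p` which are linear combinations, with algebraic coefficients, of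
logarithms of algebraic numbers, and which are linearly independent over the field of the algebraic
numbers in `ℚ_p`, are algebraically independent.  The same holds with any field `E` between `ℚ_p` and
its algebraic closure in place of `ℚ_p`.
-/

set_option autoImplicit false

namespace Pool.Agent.Results.MP_c50dba_nt.DescentToQp

open Module

/-- `L` is the Iwasawa `p`-adic logarithm on the algebraic closure of `ℚ_p`. -/
def IsIwasawaLog (p : ℕ) [Fact p.Prime] (L : PadicAlgCl p → PadicAlgCl p) : Prop :=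
  (∀ x y : PadicAlgCl p, x ≠ 0 → y ≠ 0 → L (x * y) = L x + L y) ∧
  L ((p : ℕ) : PadicAlgCl p) = 0 ∧
  ∀ z : PadicAlgCl p, ‖z‖ < 1 →
    HasSum (fun n : ℕ => (-1 : PadicAlgCl p) ^ n * z ^ (n + 1) / ((n : PadicAlgCl p) + 1))
      (L (1 + z))

/-- The algebraic numbers in the algebraic closure of `ℚ_p`. -/
noncomputable abbrev Qb (p : ℕ) [Fact p.Prime] : IntermediateField ℚ (PadicAlgCl p) :=
  algebraicClosure ℚ (PadicAlgCl p)

/-- The linear combinations, with algebraic coefficients, of the values of `L` at nonzero algebraic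
numbers. -/
noncomputable def LogSpan (p : ℕ) [Fact p.Prime] (L : PadicAlgCl p → PadicAlgCl p) :
    Submodule (Qb p) (PadicAlgCl p) :=
  Submodule.span (Qb p) {z | ∃ α : PadicAlgCl p, α ≠ 0 ∧ IsAlgebraic ℚ α ∧ z = L α}

/-- The `p`-adic Schanuel conjecture for the prime `p`: logarithms of algebraic numbers which are
linearly independent over `ℚ` are algebraically independent over `ℚ`. -/
def Schanuel (p : ℕ) [Fact p.Prime] (L : PadicAlgCl p → PadicAlgCl p) : Prop :=
  ∀ (n : ℕ) (α : Fin n → PadicAlgCl p), (∀ i, α i ≠ 0 ∧ IsAlgebraic ℚ (α i)) →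
    LinearIndependent ℚ (fun i => L (α i)) → AlgebraicIndependent ℚ (fun i => L (α i))

section aux

open Pool.Agent.Q244.GD Pool.Agent.Q244.AI

variable {p : ℕ} [hp : Fact p.Prime] {L : PadicAlgCl p → PadicAlgCl p}

private theorem log' (hL : IsIwasawaLog p L) : Pool.Agent.W245.PB.IsIwasawaLog p L :=
  ⟨hL.1, hL.2.1, hL.2.2⟩

private instance : Algebra.IsAlgebraic ℚ (Qb p) :=
  algebraicClosure.isAlgebraic ℚ (PadicAlgCl p)

private theorem schanuel_iff (hL : IsIwasawaLog p L) :
    Schanuel p L ↔ Ind (Qb p) {z | ∃ α : PadicAlgCl p, α ≠ 0 ∧ IsAlgebraic ℚ α ∧ z = L α} := by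
  constructor
  · intro h n x hx hli
    choose α h0 h1 h2 using hx
    have e : x = fun i => L (α i) := funext h2
    rw [e] at hli ⊢
    have hli' : LinearIndependent ℚ (fun i => L (α i)) := hli.restrict_scalars' ℚ
    exact (h n α (fun i => ⟨h0 i, h1 i⟩) hli').extendScalars (Qb p)
  · intro h n α hα hli
    have h1 : LinearIndependent (Qb p) (fun i => L (α i)) := by
      rw [Fintype.linearIndependent_iff]
      intro g hg
      have h2 := (Pool.Agent.W245.PB.brumer (log' hL) α (fun i => (hα i).1) (fun i => (hα i).2) hli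
        0 isAlgebraic_zero (fun i => (g i : PadicAlgCl p))
        (fun i => mem_algebraicClosure_iff.1 (g i).2) (by
          rw [zero_add]
          simpa only [smul_eq'] using hg)).2
      intro i
      exact_mod_cast h2 i
    have h2 := h n (fun i => L (α i)) (fun i => ⟨α i, (hα i).1, (hα i).2, rfl⟩) h1
    exact h2.restrictScalars (FaithfulSMul.algebraMap_injective ℚ (Qb p))

private theorem span_stable (hL : IsIwasawaLog p L) (σ : PadicAlgCl p ≃ₐ[ℚ_[p]] PadicAlgCl p)
    {z : PadicAlgCl p} (hz : z ∈ LogSpan p L) : σ z ∈ LogSpan p L := by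
  have halg : ∀ c : PadicAlgCl p, IsAlgebraic ℚ c → IsAlgebraic ℚ (σ c) := fun c hc =>
    hc.algHom (RingHom.toRatAlgHom (σ : PadicAlgCl p →+* PadicAlgCl p))
  refine Submodule.span_induction (p := fun z _ => σ z ∈ LogSpan p L) ?_ ?_ ?_ ?_ hz
  · rintro z ⟨α, hα, hα', rfl⟩
    rw [← log_aut (log' hL) σ hα]
    exact Submodule.subset_span ⟨σ α, (map_ne_zero_iff σ σ.injective).2 hα, halg α hα', rfl⟩
  · rw [map_zero]
    exact Submodule.zero_mem _
  · intro x y _ _ hx hy
    rw [map_add]
    exact Submodule.add_mem _ hx hy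
  · intro c x _ hx
    rw [smul_eq', map_mul]
    have := (LogSpan p L).smul_mem
      (⟨σ c, mem_algebraicClosure_iff.2 (halg _ (mem_algebraicClosure_iff.1 c.2))⟩ : Qb p) hx
    rwa [smul_eq'] at this

private theorem schanuel_over (hL : IsIwasawaLog p L)
    (E : IntermediateField ℚ_[p] (PadicAlgCl p)) :
    Schanuel p L ↔ Ind (Qb p) {z | z ∈ LogSpan p L ∧ z ∈ E} := by
  rw [schanuel_iff hL]
  constructor
  · intro h
    exact h.span.mono fun z hz => hz.1
  · intro h
    refine h.span.mono ?_
    rintro z ⟨α, h1, h2, rfl⟩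
    exact descent E (LogSpan p L) (fun σ v hv => span_stable hL (σ.restrictScalars ℚ_[p]) hv) _
      (Submodule.subset_span ⟨α, h1, h2, rfl⟩)

/-- Linear disjointness of `ℚ_p` and of the algebraic numbers. -/
private theorem disj (n : ℕ) (x : Fin n → ℚ_[p])
    (hx : LinearIndependent (algebraicClosure ℚ ℚ_[p]) x) :
    LinearIndependent (Qb p) (fun i => (x i : PadicAlgCl p)) := by
  classical
  rw [Fintype.linearIndependent_iff]
  by_contra hcon
  push Not at hcon
  obtain ⟨g₀, hg₀, i₀, hi₀⟩ := hcon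
  -- a nonzero relation with minimal support
  let P : ℕ → Prop := fun m => ∃ g : Fin n → Qb p, ∑ i, g i • ((x i : ℚ_[p]) : PadicAlgCl p) = 0 ∧
    (∃ i, g i ≠ 0) ∧ (Finset.univ.filter fun i => g i ≠ 0).card = m
  have hP : ∃ m, P m := ⟨_, g₀, hg₀, ⟨i₀, hi₀⟩, rfl⟩
  obtain ⟨g, hg, ⟨j, hj⟩, hcard⟩ := Nat.find_spec hP
  -- normalise
  set f : Fin n → Qb p := fun i => (g j)⁻¹ * g i with hf
  have hfj : f j = 1 := inv_mul_cancel₀ hj
  have hfsum : ∑ i, (f i : PadicAlgCl p) * (x i : PadicAlgCl p) = 0 := by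
    have : ∑ i, (f i : PadicAlgCl p) * (x i : PadicAlgCl p) =
        ((g j : PadicAlgCl p))⁻¹ * ∑ i, g i • ((x i : ℚ_[p]) : PadicAlgCl p) := by
      rw [Finset.mul_sum]
      refine Finset.sum_congr rfl fun i _ => ?_
      rw [smul_eq', hf]
      push_cast
      ring
    rw [this, hg, mul_zero]
  have hfix : ∀ σ : PadicAlgCl p ≃ₐ[ℚ_[p]] PadicAlgCl p, ∀ i, σ (f i) = f i := by
    intro σ
    have halg : ∀ i, IsAlgebraic ℚ (σ (f i)) := fun i =>
      (mem_algebraicClosure_iff.1 (f i).2).algHom
        (RingHom.toRatAlgHom (σ : PadicAlgCl p →+* PadicAlgCl p))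
    let h : Fin n → Qb p := fun i => ⟨σ (f i), mem_algebraicClosure_iff.2 (halg i)⟩ - f i
    have h1 : ∑ i, h i • ((x i : ℚ_[p]) : PadicAlgCl p) = 0 := by
      have e1 : ∑ i, σ (f i) * (x i : PadicAlgCl p) = 0 := by
        have := congrArg σ hfsum
        rw [map_sum, map_zero] at this
        rw [← this]
        refine Finset.sum_congr rfl fun i _ => ?_
        rw [map_mul]
        congr 1
        exact (σ.commutes (x i)).symm
      have e2 : ∀ i, h i • ((x i : ℚ_[p]) : PadicAlgCl p) =
          σ (f i) * (x i : PadicAlgCl p) - (f i : PadicAlgCl p) * (x i : PadicAlgCl p) := by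
        intro i
        rw [smul_eq', ← sub_mul]
        rfl
      rw [Finset.sum_congr rfl (fun i _ => e2 i), Finset.sum_sub_distrib, e1, hfsum, sub_zero]
    by_contra hne
    push Not at hne
    obtain ⟨i₁, hi₁⟩ := hne
    have h2 : ∃ i, h i ≠ 0 := by
      refine ⟨i₁, fun h0 => hi₁ ?_⟩
      have := congrArg (fun z : Qb p => (z : PadicAlgCl p)) h0
      simp only [h] at this
      push_cast at this
      exact sub_eq_zero.1 this
    have h3 := Nat.find_min' hP ⟨h, h1, h2, rfl⟩
    rw [← hcard] at h3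
    have h4 : (Finset.univ.filter fun i => h i ≠ 0) ⊂ (Finset.univ.filter fun i => g i ≠ 0) := by
      rw [Finset.ssubset_iff_of_subset]
      · refine ⟨j, Finset.mem_filter.2 ⟨Finset.mem_univ _, hj⟩, ?_⟩
        rw [Finset.mem_filter, not_and, not_not]
        intro _
        apply Subtype.ext
        simp only [h, hfj]
        push_cast
        rw [map_one, sub_self]
      · intro i hi
        rw [Finset.mem_filter] at hi ⊢
        refine ⟨Finset.mem_univ _, fun h0 => hi.2 ?_⟩
        have hf0 : f i = 0 := by rw [hf]; simp [h0]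
        apply Subtype.ext
        simp only [h, hf0]
        push_cast
        rw [map_zero, sub_self]
    exact absurd (Finset.card_lt_card h4) (not_lt.2 h3)
  -- the coefficients lie in `ℚ_p`
  have hmem : ∀ i, ∃ c : ℚ_[p], algebraMap ℚ_[p] (PadicAlgCl p) c = f i := fun i =>
    (InfiniteGalois.mem_range_algebraMap_iff_fixed ((f i : PadicAlgCl p))).2 (fun σ => hfix σ i)
  choose c hc using hmem
  have hcalg : ∀ i, IsAlgebraic ℚ (c i) := by
    intro i
    have h1 : IsAlgebraic ℚ (algebraMap ℚ_[p] (PadicAlgCl p) (c i)) := by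
      rw [hc]
      exact mem_algebraicClosure_iff.1 (f i).2
    exact (isAlgebraic_algebraMap_iff (algebraMap ℚ_[p] (PadicAlgCl p)).injective).1 h1
  rw [Fintype.linearIndependent_iff] at hx
  have h5 := hx (fun i => ⟨c i, mem_algebraicClosure_iff.2 (hcalg i)⟩) (by
    apply (algebraMap ℚ_[p] (PadicAlgCl p)).injective
    rw [map_sum, map_zero, ← hfsum]
    refine Finset.sum_congr rfl fun i _ => ?_
    rw [← hc i, Algebra.smul_def, map_mul]
    rfl) j
  have h6 : c j = 0 := congrArg (fun z : algebraicClosure ℚ ℚ_[p] => (z : ℚ_[p])) h5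
  have h7 := hc j
  rw [h6, map_zero, hfj] at h7
  exact zero_ne_one h7

end aux

/-- **Main result.** -/
theorem result (p : ℕ) [Fact p.Prime] (L : PadicAlgCl p → PadicAlgCl p) (hL : IsIwasawaLog p L) :
    (Schanuel p L ↔
      ∀ (n : ℕ) (x : Fin n → ℚ_[p]), (∀ i, (x i : PadicAlgCl p) ∈ LogSpan p L) →
        LinearIndependent (algebraicClosure ℚ ℚ_[p]) x → AlgebraicIndependent ℚ x) ∧
    ∀ E : IntermediateField ℚ_[p] (PadicAlgCl p),
      (Schanuel p L ↔
        ∀ (n : ℕ) (x : Fin n → PadicAlgCl p), (∀ i, x i ∈ LogSpan p L ∧ x i ∈ E) →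
          LinearIndependent (Qb p) x → AlgebraicIndependent ℚ x) := by
  have hE : ∀ E : IntermediateField ℚ_[p] (PadicAlgCl p),
      (Schanuel p L ↔
        ∀ (n : ℕ) (x : Fin n → PadicAlgCl p), (∀ i, x i ∈ LogSpan p L ∧ x i ∈ E) →
          LinearIndependent (Qb p) x → AlgebraicIndependent ℚ x) := by
    intro E
    rw [schanuel_over hL E]
    constructor
    · intro h n x hx hli
      exact (h n x hx hli).restrictScalars (FaithfulSMul.algebraMap_injective ℚ (Qb p))
    · intro h n x hx hli
      exact (h n x hx hli).extendScalars (Qb p)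
  refine ⟨?_, hE⟩
  rw [hE ⊥]
  have hinj : Function.Injective (algebraMap ℚ_[p] (PadicAlgCl p)) :=
    (algebraMap ℚ_[p] (PadicAlgCl p)).injective
  constructor
  · intro h n x hx hli
    have h1 := h n (fun i => (x i : PadicAlgCl p))
      (fun i => ⟨hx i, (⊥ : IntermediateField ℚ_[p] (PadicAlgCl p)).algebraMap_mem (x i)⟩)
      (disj n x hli)
    exact AlgebraicIndependent.of_comp (IsScalarTower.toAlgHom ℚ ℚ_[p] (PadicAlgCl p)) h1
  · intro h n x hx hli
    have h2 : ∀ i, ∃ c : ℚ_[p], algebraMap ℚ_[p] (PadicAlgCl p) c = x i := fun i =>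
      IntermediateField.mem_bot.1 (hx i).2
    choose c hc using h2
    have hli' : LinearIndependent (algebraicClosure ℚ ℚ_[p]) c := by
      rw [Fintype.linearIndependent_iff] at hli ⊢
      intro g hg i
      have halg : ∀ i, IsAlgebraic ℚ (algebraMap ℚ_[p] (PadicAlgCl p) (g i)) := fun i =>
        (mem_algebraicClosure_iff.1 (g i).2).algebraMap
      have h3 := hli (fun i => ⟨algebraMap ℚ_[p] (PadicAlgCl p) (g i),
        mem_algebraicClosure_iff.2 (halg i)⟩) (by
          have := congrArg (algebraMap ℚ_[p] (PadicAlgCl p)) hg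
          rw [map_sum, map_zero] at this
          rw [← this]
          refine Finset.sum_congr rfl fun i _ => ?_
          rw [← hc i, Algebra.smul_def, Algebra.smul_def, map_mul]
          rfl) i
      have h4 : algebraMap ℚ_[p] (PadicAlgCl p) (g i) = 0 :=
        congrArg (fun z : Qb p => (z : PadicAlgCl p)) h3
      rw [map_eq_zero] at h4
      exact_mod_cast h4
    have h5 := h n c (fun i => by
      have := (hx i).1
      rw [← hc i] at this
      exact this) hli'
    have h6 : x = algebraMap ℚ_[p] (PadicAlgCl p) ∘ c := funext fun i => (hc i).symm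
    rw [h6]
    have h7 := h5.map' (f := IsScalarTower.toAlgHom ℚ ℚ_[p] (PadicAlgCl p)) hinj
    exact h7

end Pool.Agent.Results.MP_c50dba_nt.DescentToQp
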