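import Pool.Agent.Y787.PFin

/-!
# `p`-adic Schanuel conjecture: logarithms in a field of transcendence degree one have large degrees

Let `F` be a subfield of the algebraic closure of `ℚ_p` which contains the algebraic numbers `ℚ̄`, and
let `x_1, ..., x_N ∈ F` be linear forms in `1` and `p`-adic logarithms of algebraic numbers such that
`1, x_1, ..., x_N` are linearly independent over `ℚ̄` (for example, by the theorem of Brumer, `p`-adic
logarithms of algebraic numbers which are linearly independent over `ℚ`). If `F` is a finite extension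
of `ℚ̄(x_i)` for all `i` (so that `F` has transcendence degree one over `ℚ̄` if `N ≥ 1`; for `N ≥ 2` the
conjecture says that there is no such `F`), then

`∑ [F : ℚ̄(x_i)] ≥ ⌊(N + 1) ^ 2 / 4⌋`.

Hence in a field of transcendence degree one over `ℚ̄` there are at most `4 D - 2` linearly
independent `p`-adic logarithms of degree at most `D`.

The complex analogue is the starting result `MP_60829e_nt.FieldDegrees`; the `p`-adic theorem was
proved in the starting library (`Pool.Agent.Y787.degreesP`) but not handed in.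
-/

set_option autoImplicit false

namespace Pool.Agent.Results.MP_c50dba_nt.FieldDegrees

/-- `L` is the Iwasawa logarithm on the algebraic closure of `ℚ_p`. -/
structure IsIwasawaLog (p : ℕ) [Fact p.Prime] (L : PadicAlgCl p → PadicAlgCl p) : Prop where
  mul : ∀ x y : PadicAlgCl p, x ≠ 0 → y ≠ 0 → L (x * y) = L x + L y
  prime : L ((p : ℕ) : PadicAlgCl p) = 0
  ser : ∀ z : PadicAlgCl p, ‖z‖ < 1 →
    HasSum (fun n : ℕ => (-1 : PadicAlgCl p) ^ n * z ^ (n + 1) / ((n : PadicAlgCl p) + 1))
      (L (1 + z))

/-- The space of all linear combinations with algebraic coefficients of `1` and of the values of `L`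
at algebraic numbers. -/
noncomputable def LogForms {p : ℕ} [Fact p.Prime] (L : PadicAlgCl p → PadicAlgCl p) :
    Submodule (algebraicClosure ℚ (PadicAlgCl p)) (PadicAlgCl p) :=
  Submodule.span (algebraicClosure ℚ (PadicAlgCl p))
    ({1} ∪ {z | ∃ α : PadicAlgCl p, α ≠ 0 ∧ IsAlgebraic ℚ α ∧ z = L α})

/-- **Main result.** Part 1: the inequality for linear forms in `1` and `p`-adic logarithms. Part 2: for
`ℚ`-linearly independent `p`-adic logarithms of algebraic numbers of degree at most `D` in `F`, the number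
of them is at most `4 D - 2`. -/
theorem result (p : ℕ) [Fact p.Prime] (L : PadicAlgCl p → PadicAlgCl p) (hL : IsIwasawaLog p L)
    (F : IntermediateField (algebraicClosure ℚ (PadicAlgCl p)) (PadicAlgCl p)) (N : ℕ) :
    (∀ x : Fin N → F, (∀ i, (x i : PadicAlgCl p) ∈ LogForms L) →
      LinearIndependent (algebraicClosure ℚ (PadicAlgCl p)) (Fin.cons 1 x : Fin (N + 1) → F) →
      (∀ i, FiniteDimensional
        (IntermediateField.adjoin (algebraicClosure ℚ (PadicAlgCl p)) {x i}) F) →
      (N + 1) ^ 2 / 4 ≤
        ∑ i, Module.finrank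
          (IntermediateField.adjoin (algebraicClosure ℚ (PadicAlgCl p)) {x i}) F) ∧
    ∀ (D : ℕ) (x : Fin N → F), 1 ≤ N →
      (∀ j, ∃ α : PadicAlgCl p, α ≠ 0 ∧ IsAlgebraic ℚ α ∧ (x j : PadicAlgCl p) = L α) →
      LinearIndependent ℚ (fun j => (x j : PadicAlgCl p)) →
      (∀ i, FiniteDimensional
        (IntermediateField.adjoin (algebraicClosure ℚ (PadicAlgCl p)) {x i}) F) →
      (∀ i, Module.finrank
        (IntermediateField.adjoin (algebraicClosure ℚ (PadicAlgCl p)) {x i}) F ≤ D) →
      N + 2 ≤ 4 * D := by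
  have hL' : Pool.Agent.W245.PB.IsIwasawaLog p L := ⟨hL.mul, hL.prime, hL.ser⟩
  have part1 := fun (x : Fin N → F) hx hli hfin => Pool.Agent.Y787.degreesP hL' F N x hx hli hfin
  refine ⟨part1, fun D x hN hl hli hfin hD => ?_⟩
  have hcons := Pool.Agent.Y787.li_consP hL' (fun j => (x j : PadicAlgCl p)) hl hli
  have hcons' : LinearIndependent (algebraicClosure ℚ (PadicAlgCl p))
      (Fin.cons 1 x : Fin (N + 1) → F) := by
    refine LinearIndependent.of_comp F.val.toLinearMap ?_
    have h1 : (F.val.toLinearMap ∘ (Fin.cons 1 x : Fin (N + 1) → F)) =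
        (Fin.cons 1 (fun j => (x j : PadicAlgCl p)) : Fin (N + 1) → PadicAlgCl p) := by
      funext i
      refine Fin.cases ?_ (fun j => ?_) i
      · simp
      · simp
    rw [h1]
    exact hcons
  have h2 := part1 x (fun i => by
    obtain ⟨α, h0, h1, h2⟩ := hl i
    exact Submodule.subset_span (Or.inr ⟨α, h0, h1, h2⟩)) hcons' hfin
  have h3 : ∑ i, Module.finrank
      (IntermediateField.adjoin (algebraicClosure ℚ (PadicAlgCl p)) {x i}) F ≤ N * D := by
    refine (Finset.sum_le_card_nsmul _ _ D fun i _ => hD i).trans ?_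
    simp
  have h4 : (N + 1) ^ 2 / 4 ≤ N * D := h2.trans h3
  have h5 : (N + 1) ^ 2 < 4 * (N * D) + 4 := by omega
  have hD1 : 1 ≤ D := by
    haveI := hfin ⟨0, hN⟩
    exact (Module.finrank_pos (R := IntermediateField.adjoin
      (algebraicClosure ℚ (PadicAlgCl p)) {x ⟨0, hN⟩}) (M := F)).trans_le (hD ⟨0, hN⟩)
  by_contra hcon
  push Not at hcon
  have h6 : 4 * D ≤ N + 1 := by omega
  have h7 := Nat.mul_le_mul_left N h6
  have h8 : N < 3 := by nlinarith
  omega

end Pool.Agent.Results.MP_c50dba_nt.FieldDegrees
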