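import Pool.Agent.Y787.PStrat
import Pool.Agent.H53.AS.Pts

/-!
# `p`-adic Schanuel conjecture: tuples of `p`-adic logarithms on an arbitrary variety

If the conjecture is true, all algebraic relations between `p`-adic logarithms of algebraic numbers come from
linear relations with rational coefficients: a tuple `y = (y_1, ..., y_m)` of logarithms on a variety `V`
which is defined over the field `ℚ̄` of the algebraic numbers is contained in a rational linear space which is
contained in `V`.  For arbitrary `V ⊆ 𝔸^m`, defined over the algebraic closure of `ℚ_p`, consider the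
translates `y + R` contained in `V`, where `R` is a rational (algebraic) linear space, and `y` is in `V`.

* Dimension.  Let `W` be a space of finite dimension `N` over `ℚ̄` which consists of linear forms in `1` and
  `p`-adic logarithms of algebraic numbers, and let `V_t`, `t ∈ 𝔸^τ`, be a family of varieties.  For every
  `ρ ≤ m` the points `y ∈ W ^ m` which lie on `V_t` for some algebraic `t`, but on no translate of an algebraic
  linear space of dimension greater than `ρ` contained in `V_t`, lie in an algebraic subset of `W ^ m` of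
  dimension at most `ρ N + (m - ρ) (m - 1) + τ`.  For `ρ = τ = 0` this is `m (m - 1)`, a number independent
  of `W`, of the degree and of the field of definition of `V`.
* Growth.  Let `l_1, ..., l_N` be `p`-adic logarithms of algebraic numbers which are linearly independent over
  `ℚ`, and let `ρ` be the greatest dimension of a rational linear space `R` such that some translate `A l + R`
  is contained in `V`, `A` an integer matrix.  Then the number of the integer `m × N` matrices `A` with
  entries of absolute value at most `H` and `A l ∈ V` is between `κ⁻¹ H ^ (ρ N)` and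
  `κ H ^ (ρ N + (m - ρ) (m - 1))`.
* Counting.  For every `ρ ≤ m` at most `κ H ^ (ρ N + (m - ρ) (m - 1))` of these matrices are such that no
  rational translate of dimension greater than `ρ` through the point `A l` is contained in `V`.

The complex theorem `MP_c82530_nt.PointsOnComplexVarieties` of the starting files needs the assumption that
the space of the algebraic tangent vectors of `V_t` at `y` has dimension at most `ρ`, which is stronger than the
assumption on translates, and it has `m (m - 1)` in the place of `(m - ρ) (m - 1)`.  The base of the proof is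
`Pool.Agent.Y787.AS` of the starting library (derivations of germs along ultrafilters and the hyperplane case
of the linear subgroup theorem), where it was handed in only for the determinantal varieties (`MP_1f047c_nt`).
-/

set_option autoImplicit false

namespace Pool.Agent.Results.MP_c50dba_nt.PointsOnVarieties

open MvPolynomial

/-- `L` is the Iwasawa logarithm on the algebraic closure of `ℚ_p`. -/
structure IsIwasawaLog (p : ℕ) [Fact p.Prime] (L : PadicAlgCl p → PadicAlgCl p) : Prop where
  mul : ∀ x y : PadicAlgCl p, x ≠ 0 → y ≠ 0 → L (x * y) = L x + L y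
  prime : L ((p : ℕ) : PadicAlgCl p) = 0
  ser : ∀ z : PadicAlgCl p, ‖z‖ < 1 →
    HasSum (fun n : ℕ => (-1 : PadicAlgCl p) ^ n * z ^ (n + 1) / ((n : PadicAlgCl p) + 1))
      (L (1 + z))

/-- The space of all linear combinations with algebraic coefficients of `1` and of the values of `L`
at algebraic numbers. -/
noncomputable def LogForms {p : ℕ} [Fact p.Prime] (L : PadicAlgCl p → PadicAlgCl p) :
    Submodule (algebraicClosure ℚ (PadicAlgCl p)) (PadicAlgCl p) :=
  Submodule.span (algebraicClosure ℚ (PadicAlgCl p))
    ({1} ∪ {z | ∃ α : PadicAlgCl p, α ≠ 0 ∧ IsAlgebraic ℚ α ∧ z = L α})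

/-- The translate `y + R_E` is contained in the set of the common zeros of the polynomials `F s`; here `R` is
a linear space of vectors with coordinates in the subfield `K` of `E`, and `R_E` is the space of all linear
combinations of these vectors with coefficients in `E`. -/
def ContainsTranslate (K : Type) {E : Type} [Field K] [Field E] [Algebra K E] {m r : ℕ}
    (F : Fin r → MvPolynomial (Fin m) E) (y : Fin m → E) (R : Submodule K (Fin m → K)) : Prop :=
  ∀ s, ∀ c ∈ Submodule.span E {x : Fin m → E | ∃ v ∈ R, x = fun i => algebraMap K E (v i)},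
    eval (fun i => y i + c i) (F s) = 0

/-- `y` is on the variety `F (y, t) = 0` for some algebraic `t`, but no translate `y + R_E` with an algebraic
linear space `R` of dimension greater than `ρ` is contained in the variety `F (., t) = 0`. -/
def OnFamily {p : ℕ} [Fact p.Prime] {m τ r : ℕ}
    (F : Fin r → MvPolynomial (Fin m ⊕ Fin τ) (PadicAlgCl p)) (ρ : ℕ)
    (y : Fin m → PadicAlgCl p) : Prop :=
  ∃ t : Fin τ → algebraicClosure ℚ (PadicAlgCl p),
    (∀ s, eval (Sum.elim y fun a => (t a : PadicAlgCl p)) (F s) = 0) ∧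
    ¬ ∃ R : Submodule (algebraicClosure ℚ (PadicAlgCl p)) (Fin m → algebraicClosure ℚ (PadicAlgCl p)),
      ρ < Module.finrank (algebraicClosure ℚ (PadicAlgCl p)) R ∧
      ∀ s, ∀ c ∈ Submodule.span (PadicAlgCl p)
        {x : Fin m → PadicAlgCl p | ∃ v ∈ R, x = fun i => (v i : PadicAlgCl p)},
        eval (Sum.elim (fun i => y i + c i) fun a => (t a : PadicAlgCl p)) (F s) = 0

/-- The integer `m × N` matrices `A` with entries of absolute value at most `H` for which the point `A l`
has the property `Q`. -/
def Matrices {E : Type} [Field E] {N : ℕ} (m : ℕ) (l : Fin N → E) (H : ℕ)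
    (Q : (Fin m → E) → Prop) : Set (Fin m → Fin N → ℤ) :=
  {A | (∀ i j, |A i j| ≤ H) ∧ Q (fun i => ∑ j, (A i j : E) * l j)}

/-- **Main result.** -/
theorem result (p : ℕ) [Fact p.Prime] (L : PadicAlgCl p → PadicAlgCl p) (hL : IsIwasawaLog p L) (m : ℕ) :
    -- dimension
    (∀ (τ r ρ : ℕ), ρ ≤ m → ∀ (F : Fin r → MvPolynomial (Fin m ⊕ Fin τ) (PadicAlgCl p))
      (W : Submodule (algebraicClosure ℚ (PadicAlgCl p)) (PadicAlgCl p))
      [FiniteDimensional (algebraicClosure ℚ (PadicAlgCl p)) W], W ≤ LogForms L →
      ∀ φ : Fin (ρ * Module.finrank (algebraicClosure ℚ (PadicAlgCl p)) W + (m - ρ) * (m - 1) +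
          τ + 1) →
        ((Fin m → W) →ₗ[algebraicClosure ℚ (PadicAlgCl p)] algebraicClosure ℚ (PadicAlgCl p)),
      ∃ P : MvPolynomial (Fin (ρ * Module.finrank (algebraicClosure ℚ (PadicAlgCl p)) W +
          (m - ρ) * (m - 1) + τ + 1)) (algebraicClosure ℚ (PadicAlgCl p)), P ≠ 0 ∧
        ∀ y : Fin m → W, OnFamily F ρ (fun i => (y i : PadicAlgCl p)) →
          eval (fun i => φ i y) P = 0) ∧
    ∀ (N : ℕ) (l : Fin N → PadicAlgCl p),
      (∀ j, ∃ α : PadicAlgCl p, α ≠ 0 ∧ IsAlgebraic ℚ α ∧ l j = L α) → LinearIndependent ℚ l →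
      ∀ (r : ℕ) (F : Fin r → MvPolynomial (Fin m) (PadicAlgCl p)) (ρ : ℕ),
      -- counting
      (ρ ≤ m → ∃ κ : ℕ, ∀ H : ℕ, 1 ≤ H →
        (Matrices m l H fun y => (∀ s, eval y (F s) = 0) ∧
          ∀ R : Submodule ℚ (Fin m → ℚ), ContainsTranslate ℚ F y R →
            Module.finrank ℚ R ≤ ρ).ncard ≤ κ * H ^ (ρ * N + (m - ρ) * (m - 1))) ∧
      -- growth
      ((∀ (A : Fin m → Fin N → ℤ) (R : Submodule ℚ (Fin m → ℚ)),
          ContainsTranslate ℚ F (fun i => ∑ j, (A i j : PadicAlgCl p) * l j) R →
            Module.finrank ℚ R ≤ ρ) →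
        (∃ (A : Fin m → Fin N → ℤ) (R : Submodule ℚ (Fin m → ℚ)),
          ContainsTranslate ℚ F (fun i => ∑ j, (A i j : PadicAlgCl p) * l j) R ∧
            Module.finrank ℚ R = ρ) →
        ∃ κ : ℕ, 1 ≤ κ ∧ ∀ H : ℕ, κ ≤ H →
          H ^ (ρ * N) ≤ κ * (Matrices m l H fun y => ∀ s, eval y (F s) = 0).ncard ∧
          (Matrices m l H fun y => ∀ s, eval y (F s) = 0).ncard ≤
            κ * H ^ (ρ * N + (m - ρ) * (m - 1))) := by
  have hL' : Pool.Agent.W245.PB.IsIwasawaLog p L := ⟨hL.mul, hL.prime, hL.ser⟩
  have hcountable : Countable (algebraicClosure ℚ (PadicAlgCl p)) :=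
    ((Algebraic.countable ℚ (PadicAlgCl p)).mono
      (fun x hx => (mem_algebraicClosure_iff.1 hx : IsAlgebraic ℚ x)) :
        ((algebraicClosure ℚ (PadicAlgCl p) : Set (PadicAlgCl p))).Countable).to_subtype
  refine ⟨?_, ?_⟩
  · intro τ r ρ hρ F W _ hW φ
    obtain ⟨P, h1, h2⟩ := Pool.Agent.H53.AS.fam_dim' (k := algebraicClosure ℚ (PadicAlgCl p))
      (Cc := PadicAlgCl p) (Pool.Agent.W254.PA.hyp_padic hL') Pool.Agent.Y787.AS.wts_pt W hW hρ F φ
    refine ⟨P, h1, ?_⟩
    rintro y ⟨t, h3, h4⟩
    exact h2 y t h3 h4
  · intro N l hl hli r F ρ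
    have hmem : ∀ j, l j ∈ Pool.Agent.Y787.AS.LtQ (Pool.Agent.W254.PA.logs L) :=
      fun j => Submodule.subset_span (Or.inr (hl j))
    exact ⟨fun hρ => Pool.Agent.H53.AS.count_pt (Pool.Agent.Y787.AS.hypQ_padic hL') hρ l hmem hli F,
      fun hmax hex => Pool.Agent.H53.AS.growth (Pool.Agent.Y787.AS.hypQ_padic hL') l hmem hli F
        hmax hex⟩

end Pool.Agent.Results.MP_c50dba_nt.PointsOnVarieties
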