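import Pool.Agent.Y787.PFin

/-!
# `p`-adic Schanuel conjecture: almost all quadratic relations between `p`-adic logarithms are trivial

If the conjecture is true, then a quadratic form `Q` over the field `ℚ̄` of the algebraic numbers
vanishes at a tuple `y` of linear forms in `p`-adic logarithms of algebraic numbers only if `y` lies in
a subspace which is defined over `ℚ̄` and on which `Q` vanishes identically (a totally isotropic
subspace). If `Q` is a form of rank `R` in `m` variables, then such subspaces have dimension at most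
`m - R + ⌊R / 2⌋`, and for suitable subspaces this is attained. We prove that the zeros of `Q`
outside of the totally isotropic subspaces are rare. Let `r` be any integer with
`2 r ≥ 2 m - R - 4`, for example `r = m - R + ⌊(R - 3) / 2⌋` if `R ≥ 3`.

* Dimension. Let `W` be a space of finite dimension `N` over `ℚ̄` which consists of linear forms in
  `1` and `p`-adic logarithms of algebraic numbers. The zeros of `Q` in `W ^ m` which are not in a
  totally isotropic subspace lie in an algebraic subset of dimension at most
  `r N + m (m - 1) + m (m - 3)`; the zeros in a fixed totally isotropic subspace of maximal dimension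
  form a space of dimension `(m - R + ⌊R / 2⌋) N`, which is larger by `N` or `2 N` up to a constant.
* Counting. Let `l_1, ..., l_N` be `p`-adic logarithms of algebraic numbers which are linearly
  independent over `ℚ`. At most `κ H ^ (r N + m (m - 1) + m (m - 3))` of the integer `m × N`
  matrices `A` with entries of absolute value at most `H` are such that `Q` vanishes at the tuple
  `y_i = ∑ A_ik l_k` of `p`-adic logarithms, but `y` is not in a totally isotropic subspace defined
  over `ℚ`.

For nondegenerate forms in `3` or `4` variables (for example `X Z - Y ^ 2` or `X T - Y Z`) one can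
take `r = 0`, and the bounds do not depend on `N`.

The complex analogue is the starting result `MP_60829e_nt.QuadraticRelations`; the `p`-adic theorem
was proved in the starting library (`Pool.Agent.Y787.quadP_dim`, `quadP_count`) but not handed in.
-/

set_option autoImplicit false

namespace Pool.Agent.Results.MP_c50dba_nt.QuadraticRelations

/-- `L` is the Iwasawa logarithm on the algebraic closure of `ℚ_p`. -/
structure IsIwasawaLog (p : ℕ) [Fact p.Prime] (L : PadicAlgCl p → PadicAlgCl p) : Prop where
  mul : ∀ x y : PadicAlgCl p, x ≠ 0 → y ≠ 0 → L (x * y) = L x + L y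
  prime : L ((p : ℕ) : PadicAlgCl p) = 0
  ser : ∀ z : PadicAlgCl p, ‖z‖ < 1 →
    HasSum (fun n : ℕ => (-1 : PadicAlgCl p) ^ n * z ^ (n + 1) / ((n : PadicAlgCl p) + 1))
      (L (1 + z))

/-- The space of all linear combinations with algebraic coefficients of `1` and of the values of `L`
at algebraic numbers. -/
noncomputable def LogForms {p : ℕ} [Fact p.Prime] (L : PadicAlgCl p → PadicAlgCl p) :
    Submodule (algebraicClosure ℚ (PadicAlgCl p)) (PadicAlgCl p) :=
  Submodule.span (algebraicClosure ℚ (PadicAlgCl p))
    ({1} ∪ {z | ∃ α : PadicAlgCl p, α ≠ 0 ∧ IsAlgebraic ℚ α ∧ z = L α})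

/-- The bilinear form `∑ i, ∑ j, S i j * y i * z j`. -/
noncomputable def form {p : ℕ} [Fact p.Prime] {m : ℕ}
    (S : Matrix (Fin m) (Fin m) (algebraicClosure ℚ (PadicAlgCl p)))
    (y z : Fin m → PadicAlgCl p) : PadicAlgCl p :=
  ∑ i, ∑ j, (S i j : PadicAlgCl p) * y i * z j

/-- The tuple `y` is a linear combination, with coefficients `c a`, of vectors `u a` with coordinates
in the field `K` on which the form `S` vanishes identically: `y` lies in a totally isotropic subspace
defined over `K`. -/
def InIsotropicSubspace {p : ℕ} [Fact p.Prime] (K : Type) [Field K] [Algebra K (PadicAlgCl p)]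
    {m : ℕ} (S : Matrix (Fin m) (Fin m) (algebraicClosure ℚ (PadicAlgCl p)))
    (y : Fin m → PadicAlgCl p) : Prop :=
  ∃ (s : ℕ) (u : Fin s → Fin m → K) (c : Fin s → PadicAlgCl p),
    (∀ a b, form S (fun i => algebraMap K (PadicAlgCl p) (u a i))
      (fun i => algebraMap K (PadicAlgCl p) (u b i)) = 0) ∧
    ∀ i, y i = ∑ a, c a * algebraMap K (PadicAlgCl p) (u a i)

/-- **Main result.** -/
theorem result (p : ℕ) [Fact p.Prime] (L : PadicAlgCl p → PadicAlgCl p) (hL : IsIwasawaLog p L)
    (m r : ℕ) (S : Matrix (Fin m) (Fin m) (algebraicClosure ℚ (PadicAlgCl p))) (hS : S.IsSymm)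
    (hr : 2 * m ≤ 2 * r + S.rank + 4) :
    (∀ (W : Submodule (algebraicClosure ℚ (PadicAlgCl p)) (PadicAlgCl p))
      [FiniteDimensional (algebraicClosure ℚ (PadicAlgCl p)) W], W ≤ LogForms L →
      ∀ φ : Fin (r * Module.finrank (algebraicClosure ℚ (PadicAlgCl p)) W + m * (m - 1) +
          m * (m - 3) + 1) →
        ((Fin m → W) →ₗ[algebraicClosure ℚ (PadicAlgCl p)] algebraicClosure ℚ (PadicAlgCl p)),
      ∃ P : MvPolynomial (Fin (r * Module.finrank (algebraicClosure ℚ (PadicAlgCl p)) W +
          m * (m - 1) + m * (m - 3) + 1)) (algebraicClosure ℚ (PadicAlgCl p)), P ≠ 0 ∧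
        ∀ y : Fin m → W,
          form S (fun i => (y i : PadicAlgCl p)) (fun i => (y i : PadicAlgCl p)) = 0 →
          ¬ InIsotropicSubspace (algebraicClosure ℚ (PadicAlgCl p)) S
            (fun i => (y i : PadicAlgCl p)) →
          MvPolynomial.eval (fun k => φ k y) P = 0) ∧
    ∀ (N : ℕ) (l : Fin N → PadicAlgCl p),
      (∀ k, ∃ α : PadicAlgCl p, α ≠ 0 ∧ IsAlgebraic ℚ α ∧ l k = L α) → LinearIndependent ℚ l →
      ∃ κ : ℕ, ∀ H : ℕ, 1 ≤ H →
        Set.ncard {A : Fin m → Fin N → ℤ | (∀ i k, |A i k| ≤ H) ∧
          form S (fun i => ∑ k, (A i k : PadicAlgCl p) * l k)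
            (fun i => ∑ k, (A i k : PadicAlgCl p) * l k) = 0 ∧
          ¬ InIsotropicSubspace ℚ S (fun i => ∑ k, (A i k : PadicAlgCl p) * l k)} ≤
        κ * H ^ (r * N + m * (m - 1) + m * (m - 3)) :=
  have hL' : Pool.Agent.W245.PB.IsIwasawaLog p L := ⟨hL.mul, hL.prime, hL.ser⟩
  ⟨fun W _ hW φ => Pool.Agent.Y787.quadP_dim hL' W hW S hS hr φ,
    fun _ l hl hli => Pool.Agent.Y787.quadP_count hL' S hS hr l hl hli⟩

end Pool.Agent.Results.MP_c50dba_nt.QuadraticRelations
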